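import Pool.Agent.N453.ZS.Main
import Pool.Agent.TH38.CX.Syz

/-!
Vanishing of the cohomology of a group with coefficients in permutation modules: exact sequences
of permutation modules, orbits, the trivial module.
-/

set_option autoImplicit false

open scoped Matrix

namespace Pool.Agent.K9h14.ZA

open Pool.Agent.H496R3.ZS (IsAmenable)
open Pool.Agent.H919R4.ZS (FinRes toRed eps eps_add eps_sub eps_smul eps_zsmul eps_single eps_d
  augm augm_single)
open Pool.Agent.H919R4.AS (permZ ringZ cobdZ coboundariesZ cohomologyZ)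
open Pool.Agent.N453.ZS (psh psh_apply ringZ_single cobdZ_psh cobdZ_cobdZ cob_psh)
open Pool.Agent.TH38.CX (AcyclicGComplex)

variable {G : Type} [Group G]

/-- `H^k(G; ℤ[S]) = 0` -/
def V (X : FinRes G) (S : Type) [MulAction G S] (k : ℕ) : Prop :=
  ∀ z : Fin (X.n k) → (S →₀ ℤ), cobdZ X S k z = 0 → z ∈ coboundariesZ X S k

/-- additive maps of permutation modules which commute with the action of the group -/
def Eqv (G : Type) [Group G] {S T : Type} [MulAction G S] [MulAction G T]
    (f : (S →₀ ℤ) →+ (T →₀ ℤ)) : Prop :=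
  ∀ (g : G) (x : S →₀ ℤ), f (x.mapDomain (fun s => g • s)) = (f x).mapDomain (fun t => g • t)

section eqv

variable {S T : Type} [MulAction G S] [MulAction G T] {f : (S →₀ ℤ) →+ (T →₀ ℤ)}

lemma Eqv.ring (hf : Eqv G f) (a : MonoidAlgebra ℤ G) (x : S →₀ ℤ) :
    f (ringZ G S a x) = ringZ G T a (f x) := by
  refine MonoidAlgebra.induction_linear a ?_ ?_ ?_
  · simp
  · intro u v hu hv
    rw [map_add, map_add]
    change f (ringZ G S u x + ringZ G S v x) = ringZ G T u (f x) + ringZ G T v (f x)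
    rw [map_add, hu, hv]
  · intro g r
    rw [ringZ_single, ringZ_single, map_zsmul, hf]

/-- the map of tuples -/
noncomputable def psf (f : (S →₀ ℤ) →+ (T →₀ ℤ)) {a : ℕ} :
    (Fin a → (S →₀ ℤ)) →+ (Fin a → (T →₀ ℤ)) where
  toFun y := fun j => f (y j)
  map_zero' := by funext j; simp
  map_add' x y := by funext j; simp

omit [MulAction G S] [MulAction G T] in
lemma psf_apply {a : ℕ} (y : Fin a → (S →₀ ℤ)) (j : Fin a) : psf f y j = f (y j) := rfl

lemma cobdZ_psf (X : FinRes G) (hf : Eqv G f) (i : ℕ) (y : Fin (X.n i) → (S →₀ ℤ)) :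
    cobdZ X T i (psf f y) = psf f (cobdZ X S i y) := by
  funext k
  change ∑ j, ringZ G T (X.d i k j) (f (y j)) = f (∑ j, ringZ G S (X.d i k j) (y j))
  rw [map_sum]
  exact Finset.sum_congr rfl fun j _ => (hf.ring _ _).symm

end eqv

/-- a short exact sequence `0 → ℤ[A] → ℤ[B] → ℤ[C] → 0` -/
theorem V_quot (X : FinRes G) {A B C : Type} [MulAction G A] [MulAction G B] [MulAction G C]
    {f : (A →₀ ℤ) →+ (B →₀ ℤ)} {g : (B →₀ ℤ) →+ (C →₀ ℤ)} (hf : Eqv G f) (hg : Eqv G g)
    (inj : ∀ x, f x = 0 → x = 0) (ex : ∀ y, g y = 0 → ∃ x, f x = y) (gf : ∀ x, g (f x) = 0)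
    (surj : Function.Surjective g) {k : ℕ} (hA : V X A (k + 2)) (hB : V X B (k + 1)) :
    V X C (k + 1) := by
  intro z hz
  choose y hy using fun j => surj (z j)
  have hy' : psf g y = z := funext hy
  have h1 : ∀ j, g (cobdZ X B (k + 1) y j) = 0 := by
    intro j
    have := cobdZ_psf X hg (k + 1) y
    rw [hy', hz] at this
    exact (congrFun this j).symm
  choose x hx using fun j => ex _ (h1 j)
  have hx' : psf f x = cobdZ X B (k + 1) y := funext hx
  have h2 : cobdZ X A (k + 2) x = 0 := by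
    funext j
    apply inj
    have := cobdZ_psf X hf (k + 2) x
    rw [hx', cobdZ_cobdZ] at this
    exact (congrFun this j).symm
  obtain ⟨x', hx2⟩ := hA x h2
  have h3 : cobdZ X B (k + 1) (y - psf f x') = 0 := by
    rw [map_sub, cobdZ_psf X hf, hx2, hx', sub_self]
  obtain ⟨w, hw⟩ := hB _ h3
  refine ⟨psf g w, ?_⟩
  rw [cobdZ_psf X hg, hw, map_sub, hy']
  have : psf g (psf f x') = 0 := funext fun j => gf _
  rw [this, sub_zero]

/-! ### orbits -/

/-- the map `G/G_s → S` -/
def iot {S : Type} [MulAction G S] (s : S) : G ⧸ MulAction.stabilizer G s → S :=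
  MulAction.ofQuotientStabilizer G s

lemma iot_smul {S : Type} [MulAction G S] (s : S) (g : G) (q : G ⧸ MulAction.stabilizer G s) :
    iot s (g • q) = g • iot s q := MulAction.ofQuotientStabilizer_smul G s g q

lemma iot_inj {S : Type} [MulAction G S] (s : S) : Function.Injective (iot (G := G) s) :=
  MulAction.injective_ofQuotientStabilizer G s

lemma iot_range {S : Type} [MulAction G S] (s t : S) :
    t ∈ Set.range (iot (G := G) s) ↔ t ∈ MulAction.orbit G s := by
  constructor
  · rintro ⟨q, rfl⟩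
    induction q using QuotientGroup.induction_on with
    | H g => exact ⟨g, rfl⟩
  · rintro ⟨g, rfl⟩
    exact ⟨QuotientGroup.mk g, rfl⟩

/-- the restriction to an orbit -/
noncomputable def res {S : Type} [MulAction G S] (s : S) :
    (S →₀ ℤ) →+ (G ⧸ MulAction.stabilizer G s →₀ ℤ) where
  toFun x := x.comapDomain (iot s) (iot_inj s).injOn
  map_zero' := by ext; simp
  map_add' x y := by
    ext q
    simp [Finsupp.comapDomain_apply]

lemma res_apply {S : Type} [MulAction G S] (s : S) (x : S →₀ ℤ)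
    (q : G ⧸ MulAction.stabilizer G s) : res s x q = x (iot s q) := rfl

lemma mapDomain_smul_apply {S : Type} [MulAction G S] (g : G) (x : S →₀ ℤ) (s : S) :
    (x.mapDomain (fun s => g • s)) s = x (g⁻¹ • s) := by
  have h : s = (fun s => g • s) (g⁻¹ • s) := by simp
  conv_lhs => rw [h]
  exact Finsupp.mapDomain_apply (MulAction.injective g) x (g⁻¹ • s)

lemma eqv_res {S : Type} [MulAction G S] (s : S) : Eqv G (res (G := G) s) := by
  intro g x
  ext q
  rw [res_apply, mapDomain_smul_apply, mapDomain_smul_apply, res_apply, iot_smul]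

open Classical in
lemma sum_res {S : Type} [MulAction G S] (F : Finset S) (x : S →₀ ℤ)
    (h1 : ∀ t, x t ≠ 0 → ∃ s ∈ F, t ∈ MulAction.orbit G s)
    (h2 : ∀ s ∈ F, ∀ s' ∈ F, MulAction.orbit G s = MulAction.orbit G s' → s = s') :
    ∑ s ∈ F, (res (G := G) s x).mapDomain (iot s) = x := by
  ext t
  rw [Finsupp.finsetSum_apply]
  have key : ∀ s, (res (G := G) s x).mapDomain (iot s) t =
      if t ∈ MulAction.orbit G s then x t else 0 := by
    intro s
    split_ifs with ht
    · rw [← iot_range] at ht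
      obtain ⟨q, rfl⟩ := ht
      rw [Finsupp.mapDomain_apply (iot_inj s), res_apply]
    · rw [← iot_range] at ht
      exact Finsupp.mapDomain_notin_range _ _ ht
  simp only [key]
  by_cases hx : x t = 0
  · simp [hx]
  · obtain ⟨s, hs, hts⟩ := h1 t hx
    rw [Finset.sum_eq_single s, if_pos hts]
    · intro s' hs' hne
      rw [if_neg]
      intro hts'
      apply hne
      apply h2 s' hs' s hs
      rw [← MulAction.orbit_eq_iff.2 hts', ← MulAction.orbit_eq_iff.2 hts]
    · intro h; exact absurd hs h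

/-- it is enough to know one point of each orbit -/
theorem V_of_orbits (X : FinRes G) {S : Type} [MulAction G S] {k : ℕ}
    (h : ∀ s : S, ∃ s' ∈ MulAction.orbit G s, V X (G ⧸ MulAction.stabilizer G s') k) :
    V X S k := by
  classical
  intro z hz
  choose r hr using h
  -- representatives depending only on the orbit
  let p : S → S := fun s => r (Quotient.out (Quotient.mk (MulAction.orbitRel G S) s))
  have hp0 : ∀ s, (Quotient.out (Quotient.mk (MulAction.orbitRel G S) s)) ∈ MulAction.orbit G s := by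
    intro s
    have : (MulAction.orbitRel G S) (Quotient.out (Quotient.mk (MulAction.orbitRel G S) s)) s :=
      Quotient.exact (Quotient.out_eq _)
    exact MulAction.orbitRel_apply.1 this
  have hp1 : ∀ s, MulAction.orbit G (p s) = MulAction.orbit G s := by
    intro s
    rw [MulAction.orbit_eq_iff.2 (hr _).1, MulAction.orbit_eq_iff.2 (hp0 s)]
  have hp2 : ∀ s s', MulAction.orbit G s = MulAction.orbit G s' → p s = p s' := by
    intro s s' hs
    have : Quotient.mk (MulAction.orbitRel G S) s = Quotient.mk (MulAction.orbitRel G S) s' := by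
      apply Quotient.sound
      change (MulAction.orbitRel G S) s s'
      rw [MulAction.orbitRel_apply]
      exact MulAction.orbit_eq_iff.1 hs
    change r _ = r _
    rw [this]
  let F : Finset S := Finset.univ.biUnion fun j => (z j).support.image p
  have hF : ∀ s ∈ F, ∃ t, s = p t := by
    intro s hs
    obtain ⟨j, -, hj⟩ := Finset.mem_biUnion.1 hs
    obtain ⟨t, -, ht⟩ := Finset.mem_image.1 hj
    exact ⟨t, ht.symm⟩
  have hsum : z = ∑ s ∈ F, psh (iot (G := G) s) (psf (res (G := G) s) z) := by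
    funext j
    rw [Finset.sum_apply]
    symm
    refine sum_res F (z j) ?_ ?_
    · intro t ht
      refine ⟨p t, Finset.mem_biUnion.2 ⟨j, Finset.mem_univ _, Finset.mem_image.2 ⟨t, ?_, rfl⟩⟩, ?_⟩
      · exact Finsupp.mem_support_iff.2 ht
      · rw [hp1]; exact MulAction.mem_orbit_self t
    · intro s hs s' hs' hss
      obtain ⟨t, rfl⟩ := hF s hs
      obtain ⟨t', rfl⟩ := hF s' hs'
      rw [hp1, hp1] at hss
      exact hp2 _ _ hss
  rw [hsum]
  refine AddSubgroup.sum_mem _ fun s hs => ?_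
  refine cob_psh X (iot s) (fun g q => iot_smul s g q) ?_
  obtain ⟨t, rfl⟩ := hF s hs
  refine (hr _).2 _ ?_
  rw [cobdZ_psf X (eqv_res _), hz, map_zero]

/-! ### degree zero -/

section module

variable {M : Type} [AddCommGroup M] (ρ : MonoidAlgebra ℤ G →+* AddMonoid.End M)

/-- pairing of a chain with a cochain -/
noncomputable def pr {n : ℕ} (x : Fin n → MonoidAlgebra ℤ G) (v : Fin n → M) : M := ∑ j, ρ (x j) (v j)

/-- the coboundary -/
noncomputable def cob (X : FinRes G) (i : ℕ) (v : Fin (X.n i) → M) : Fin (X.n (i + 1)) → M :=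
  fun k => ∑ j, ρ (X.d i k j) (v j)

lemma pr_add {n : ℕ} (x y : Fin n → MonoidAlgebra ℤ G) (v : Fin n → M) :
    pr ρ (x + y) v = pr ρ x v + pr ρ y v := by
  simp only [pr, Pi.add_apply, map_add, ← Finset.sum_add_distrib]
  rfl

lemma pr_sub {n : ℕ} (x y : Fin n → MonoidAlgebra ℤ G) (v : Fin n → M) :
    pr ρ (x - y) v = pr ρ x v - pr ρ y v := by
  simp only [pr, Pi.sub_apply, map_sub, ← Finset.sum_sub_distrib]
  rfl

lemma pr_smul {n : ℕ} (a : MonoidAlgebra ℤ G) (x : Fin n → MonoidAlgebra ℤ G) (v : Fin n → M) :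
    pr ρ (a • x) v = ρ a (pr ρ x v) := by
  simp only [pr, Pi.smul_apply, smul_eq_mul, map_mul, map_sum]
  rfl

lemma pr_vecMul {k n : ℕ} (x : Fin k → MonoidAlgebra ℤ G)
    (D : Matrix (Fin k) (Fin n) (MonoidAlgebra ℤ G)) (v : Fin n → M) :
    pr ρ (x ᵥ* D) v = pr ρ x (fun k => ∑ j, ρ (D k j) (v j)) := by
  simp only [pr, Matrix.vecMul, dotProduct, map_sum]
  have e : ∀ j, (∑ i, ρ (x i * D i j)) (v j) = ∑ i, ρ (x i) (ρ (D i j) (v j)) := by
    intro j
    have e1 := AddMonoidHom.finsetSum_apply (fun i => ρ (x i * D i j)) Finset.univ (v j)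
    refine Eq.trans e1 ?_
    refine Finset.sum_congr rfl fun i _ => ?_
    rw [map_mul]
    rfl
  rw [Finset.sum_congr rfl fun j _ => e j, Finset.sum_comm]

lemma pr_single {n : ℕ} (j : Fin n) (v : Fin n → M) : pr ρ (Pi.single j 1) v = v j := by
  rw [pr, Finset.sum_eq_single j]
  · simp
  · intro i _ hi; simp [Pi.single_eq_of_ne hi]
  · simp

/-- a cocycle of degree zero comes from an invariant element -/
theorem zero_cocycle (X : FinRes G) (v : Fin (X.n 0) → M) (hv : cob ρ X 0 v = 0)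
    {x0 : Fin (X.n 0) → MonoidAlgebra ℤ G} (hx0 : eps X x0 = 1) :
    (∀ g : G, ρ (MonoidAlgebra.single g 1) (pr ρ x0 v) = pr ρ x0 v) ∧
    ∀ j, v j = X.aug j • pr ρ x0 v := by
  have h0 : ∀ x, eps X x = 0 → pr ρ x v = 0 := by
    intro x hx
    obtain ⟨y, rfl⟩ := Pool.Agent.H919R4.ZS.exists_lift X x hx
    rw [pr_vecMul]
    change pr ρ y (cob ρ X 0 v) = 0
    rw [hv]
    simp [pr]
  constructor
  · intro g
    rw [← pr_smul]
    have := h0 ((MonoidAlgebra.single g 1 : MonoidAlgebra ℤ G) • x0 - x0) (by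
      rw [eps_sub, eps_smul, augm_single, hx0]; norm_num)
    rw [pr_sub] at this
    exact sub_eq_zero.1 this
  · intro j
    have := h0 (Pi.single j 1 - X.aug j • x0) (by
      rw [eps_sub, eps_single, eps_zsmul, hx0, mul_one, sub_self])
    rw [pr_sub, pr_single] at this
    rw [sub_eq_zero.1 this]
    simp only [pr, Pi.smul_apply, map_zsmul, Finset.smul_sum]
    rfl

end module

/-- no finite orbits -/
theorem V_zero (X : FinRes G) {S : Type} [MulAction G S]
    (h : ∀ s : S, (MulAction.orbit G s).Infinite) : V X S 0 := by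
  intro z hz
  obtain ⟨x0, hx0⟩ := X.surj
  obtain ⟨h1, h2⟩ := zero_cocycle (ringZ G S) X z hz (x0 := x0) hx0
  set m : S →₀ ℤ := pr (ringZ G S) x0 z with hm
  have hm0 : m = 0 := by
    ext s
    by_contra hs
    apply h s
    refine (Finsupp.finite_support m).subset ?_
    rintro _ ⟨g, rfl⟩
    have h3 := h1 g⁻¹
    rw [ringZ_single, one_smul] at h3
    have h4 := DFunLike.congr_fun h3 s
    rw [mapDomain_smul_apply, inv_inv] at h4
    change m (g • s) ≠ 0
    rw [h4]
    exact hs
  have : z = 0 := by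
    funext j
    rw [h2 j, hm0, smul_zero]
    rfl
  rw [this]
  exact AddSubgroup.zero_mem _

/-! ### resolutions of the trivial module -/

/-- the sum of the coefficients -/
noncomputable def sm (S : Type) : (S →₀ ℤ) →+ ℤ := Finsupp.liftAddHom fun _ => AddMonoidHom.id ℤ

lemma sm_apply {S : Type} (x : S →₀ ℤ) : sm S x = x.sum (fun _ r => r) := rfl

lemma sm_single {S : Type} (s : S) (r : ℤ) : sm S (Finsupp.single s r) = r := by
  simp [sm]

lemma sm_mapDomain {S T : Type} (φ : S → T) (x : S →₀ ℤ) : sm T (x.mapDomain φ) = sm S x := by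
  induction x using Finsupp.induction_linear with
  | zero => simp
  | add x y hx hy => rw [Finsupp.mapDomain_add, map_add, map_add, hx, hy]
  | single s r => rw [Finsupp.mapDomain_single, sm_single, sm_single]

lemma sm_ring {S : Type} [MulAction G S] (a : MonoidAlgebra ℤ G) (x : S →₀ ℤ) :
    sm S (ringZ G S a x) = augm G a * sm S x := by
  refine MonoidAlgebra.induction_linear a ?_ ?_ ?_
  · simp
  · intro u v hu hv
    rw [map_add, map_add, add_mul, ← hu, ← hv]
    exact map_add (sm S) _ _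
  · intro g r
    rw [ringZ_single, augm_single, map_zsmul, sm_mapDomain, smul_eq_mul]

/-- the main dimension shift -/
theorem no_res (X : FinRes G) (Y : AcyclicGComplex G) (hY : Y.len ≤ 2)
    (h0 : V X (Y.E 0) 0) (h1 : V X (Y.E 1) 1) (h2 : V X (Y.E 2) 2) : False := by
  obtain ⟨v0⟩ := Y.nonempty
  have e0 : Eqv G (Y.bd 0) := fun g x => Y.bd_smul 0 g x
  have e1 : Eqv G (Y.bd 1) := fun g x => Y.bd_smul 1 g x
  have inj : ∀ x, Y.bd 1 x = 0 → x = 0 := by
    intro x hx
    obtain ⟨y, hy⟩ := (Y.exact_succ 1 x).1 hx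
    have := Y.isEmpty 3 (by omega)
    have hy0 : y = 0 := by ext e; exact this.elim e
    rw [← hy, hy0, map_zero]
  have sb : ∀ x, sm (Y.E 0) (Y.bd 0 x) = 0 := fun x => (Y.exact_zero _).2 ⟨x, rfl⟩
  have bb : ∀ x, Y.bd 0 (Y.bd 1 x) = 0 := fun x => (Y.exact_succ 0 _).2 ⟨x, rfl⟩
  let u0 : Fin (X.n 0) → (Y.E 0 →₀ ℤ) := fun j => Finsupp.single v0 (X.aug j)
  have k1 : ∀ k, sm _ (cobdZ X (Y.E 0) 0 u0 k) = 0 := by
    intro k
    change sm _ (∑ j, ringZ G (Y.E 0) (X.d 0 k j) (u0 j)) = 0
    rw [map_sum]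
    have e : ∀ j, sm (Y.E 0) (ringZ G (Y.E 0) (X.d 0 k j) (u0 j)) = augm G (X.d 0 k j) * X.aug j := by
      intro j
      rw [sm_ring, sm_single]
    rw [Finset.sum_congr rfl fun j _ => e j]
    have := eps_d X (Pi.single k 1)
    rw [Matrix.single_one_vecMul] at this
    exact this
  choose u1 hu1 using fun k => (Y.exact_zero _).1 (k1 k)
  have hu1' : psf (Y.bd 0) u1 = cobdZ X (Y.E 0) 0 u0 := funext hu1
  have k2 : ∀ k, Y.bd 0 (cobdZ X (Y.E 1) 1 u1 k) = 0 := by
    intro k
    have := cobdZ_psf X e0 1 u1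
    rw [hu1', cobdZ_cobdZ] at this
    exact (congrFun this k).symm
  choose u2 hu2 using fun k => (Y.exact_succ 0 _).1 (k2 k)
  have hu2' : psf (Y.bd 1) u2 = cobdZ X (Y.E 1) 1 u1 := funext hu2
  have k3 : cobdZ X (Y.E 2) 2 u2 = 0 := by
    funext k
    apply inj
    have := cobdZ_psf X e1 2 u2
    rw [hu2', cobdZ_cobdZ] at this
    exact (congrFun this k).symm
  obtain ⟨w1, hw1⟩ := h2 _ k3
  have k4 : cobdZ X (Y.E 1) 1 (u1 - psf (Y.bd 1) w1) = 0 := by
    rw [map_sub, cobdZ_psf X e1, hw1, hu2', sub_self]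
  obtain ⟨w0, hw0⟩ := h1 _ k4
  have k5 : cobdZ X (Y.E 0) 0 (u0 - psf (Y.bd 0) w0) = 0 := by
    rw [map_sub, cobdZ_psf X e0, hw0, ← hu1', map_sub]
    have : psf (Y.bd 0) (psf (Y.bd 1) w1) = 0 := funext fun j => bb _
    rw [this, sub_zero, sub_self]
  have k6 : u0 - psf (Y.bd 0) w0 = 0 := h0 _ k5
  have k7 : ∀ j, X.aug j = 0 := by
    intro j
    have h3 : u0 j = Y.bd 0 (w0 j) := congrFun (sub_eq_zero.1 k6) j
    have h4 := congrArg (sm (Y.E 0)) h3
    rw [sb] at h4
    rw [← h4]
    exact (sm_single v0 (X.aug j)).symm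
  obtain ⟨x, hx⟩ := X.surj
  rw [Finset.sum_eq_zero fun j _ => by rw [k7 j, mul_zero]] at hx
  exact zero_ne_one hx

end Pool.Agent.K9h14.ZA
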