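import Pool.Agent.K9h14.ZA.Base

/-!
Vanishing of `H^1(G; ℤ[G/P])`: directed unions and subgroups of finite index.
-/

set_option autoImplicit false

open scoped Matrix

namespace Pool.Agent.K9h14.ZA

open Pool.Agent.H919R4.ZS (FinRes toRed eps eps_sub eps_smul eps_zsmul eps_single eps_d exists_lift
  augm augm_single)
open Pool.Agent.H919R4.AS (permZ ringZ cobdZ coboundariesZ cohomologyZ)
open Pool.Agent.N453.ZS (psh psh_apply psh_psh psh_surj ringZ_single cobdZ_psh cobdZ_cobdZ cob_psh)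

variable {G : Type} [Group G]

lemma qp_smul {L P : Subgroup G} (h : L ≤ P) (g : G) (q : G ⧸ L) :
    Subgroup.quotientMapOfLE h (g • q) = g • Subgroup.quotientMapOfLE h q := by
  induction q using QuotientGroup.induction_on with
  | H x => rfl

/-- directed unions -/
theorem V_local (X : FinRes G) (P : Subgroup G)
    (h : ∀ F : Finset G, (F : Set G) ⊆ P → ∃ L : Subgroup G, (F : Set G) ⊆ L ∧ L ≤ P ∧
      V X (G ⧸ L) 1) : V X (G ⧸ P) 1 := by
  classical
  intro z hz
  obtain ⟨zt, hzt⟩ := psh_surj (p := (QuotientGroup.mk : G → G ⧸ P)) QuotientGroup.mk_surjective z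
  set c : Fin (X.n 2) → (G →₀ ℤ) := cobdZ X G 1 zt with hc
  have hP : psh (QuotientGroup.mk : G → G ⧸ P) c = 0 := by
    rw [hc, ← cobdZ_psh X _ (fun _ _ => rfl), hzt, hz]
  let F : Finset G := Finset.univ.biUnion fun k =>
    (((c k).support ×ˢ (c k).support).filter (fun p => p.1⁻¹ * p.2 ∈ P)).image
      (fun p => p.1⁻¹ * p.2)
  have hF : (F : Set G) ⊆ P := by
    intro x hx
    obtain ⟨k, -, hk⟩ := Finset.mem_biUnion.1 (Finset.mem_coe.1 hx)
    obtain ⟨p, hp, rfl⟩ := Finset.mem_image.1 hk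
    exact (Finset.mem_filter.1 hp).2
  obtain ⟨L, hFL, hL, hV⟩ := h F hF
  have hcL : psh (QuotientGroup.mk : G → G ⧸ L) c = 0 := by
    funext k
    have h1 : Finsupp.mapDomain (Subgroup.quotientMapOfLE hL)
        (Finsupp.mapDomain (QuotientGroup.mk : G → G ⧸ L) (c k)) =
        Finsupp.mapDomain (Subgroup.quotientMapOfLE hL) 0 := by
      rw [← Finsupp.mapDomain_comp, Finsupp.mapDomain_zero]
      exact congrFun hP k
    let A : Set (G ⧸ L) := (QuotientGroup.mk : G → G ⧸ L) '' ((c k).support : Set G)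
    have hinj : Set.InjOn (Subgroup.quotientMapOfLE hL) A := by
      rintro _ ⟨x, hx, rfl⟩ _ ⟨y, hy, rfl⟩ hxy
      have h2 : x⁻¹ * y ∈ P := QuotientGroup.eq.1 hxy
      rw [QuotientGroup.eq]
      apply hFL
      refine Finset.mem_coe.2 (Finset.mem_biUnion.2 ⟨k, Finset.mem_univ _,
        Finset.mem_image.2 ⟨(x, y), Finset.mem_filter.2 ⟨Finset.mem_product.2 ⟨hx, hy⟩, h2⟩, rfl⟩⟩)
    refine Finsupp.mapDomain_injOn A hinj ?_ ?_ h1
    · intro q hq
      obtain ⟨x, hx, rfl⟩ := Finset.mem_image.1 (Finsupp.mapDomain_support (Finset.mem_coe.1 hq))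
      exact ⟨x, hx, rfl⟩
    · intro q hq
      simp at hq
  obtain ⟨y, hy⟩ := hV (psh (QuotientGroup.mk : G → G ⧸ L) zt) (by
    rw [cobdZ_psh X _ (fun _ _ => rfl), ← hc, hcL])
  refine ⟨psh (Subgroup.quotientMapOfLE hL) y, ?_⟩
  rw [cobdZ_psh X _ (qp_smul hL), hy, psh_psh]
  exact hzt

/-! ### torsion -/

lemma inv_cob (X : FinRes G) {S : Type} [MulAction G S] (m : S →₀ ℤ)
    (hm : ∀ g : G, m.mapDomain (fun s => g • s) = m) :
    cobdZ X S 0 (fun j => X.aug j • m) = 0 := by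
  have h1 : ∀ a : MonoidAlgebra ℤ G, ringZ G S a m = augm G a • m := by
    intro a
    refine MonoidAlgebra.induction_linear a ?_ ?_ ?_
    · rw [map_zero, map_zero, zero_smul]; rfl
    · intro u v hu hv
      rw [map_add, map_add, add_smul, ← hu, ← hv]
      rfl
    · intro g r
      rw [ringZ_single, augm_single, hm]
  funext k
  change ∑ j, ringZ G S (X.d 0 k j) (X.aug j • m) = 0
  have h2 : ∀ j, ringZ G S (X.d 0 k j) (X.aug j • m) =
      (augm G (X.d 0 k j) * X.aug j) • m := by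
    intro j
    rw [map_zsmul, h1, ← mul_smul, mul_comm]
  rw [Finset.sum_congr rfl fun j _ => h2 j, ← Finset.sum_smul]
  have h3 : ∑ j, augm G (X.d 0 k j) * X.aug j = 0 := by
    have h4 := eps_d X (Pi.single k 1)
    rw [Matrix.single_one_vecMul] at h4
    exact h4
  rw [h3, zero_smul]

/-- `H^1(G; ℤ[S])` is torsion free -/
theorem cob_of_smul (X : FinRes G) {S : Type} [MulAction G S] {n : ℕ} (hn : n ≠ 0)
    (z : Fin (X.n 1) → (S →₀ ℤ)) (hz : (n : ℤ) • z ∈ coboundariesZ X S 1) :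
    z ∈ coboundariesZ X S 1 := by
  obtain ⟨y, hy⟩ := hz
  have hn' : (n : ℤ) ≠ 0 := by exact_mod_cast hn
  obtain ⟨x0, hx0⟩ := X.surj
  change eps X x0 = 1 at hx0
  have h0 : ∀ x, eps X x = 0 → ∃ w : S →₀ ℤ, pr (ringZ G S) x y = (n : ℤ) • w := by
    intro x hx
    obtain ⟨u, rfl⟩ := exists_lift X x hx
    refine ⟨pr (ringZ G S) u z, ?_⟩
    rw [pr_vecMul]
    change pr (ringZ G S) u (cobdZ X S 0 y) = _
    rw [hy]
    simp only [pr, Pi.smul_apply, map_zsmul, Finset.smul_sum]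
  set m := pr (ringZ G S) x0 y with hm
  let m' : S →₀ ℤ := m.mapRange (fun a => a % (n : ℤ)) (Int.zero_emod _)
  have hm' : ∀ g : G, m'.mapDomain (fun s => g • s) = m' := by
    intro g
    obtain ⟨w, hw⟩ := h0 ((MonoidAlgebra.single g 1 : MonoidAlgebra ℤ G) • x0 - x0) (by
      rw [eps_sub, eps_smul, augm_single, hx0]; norm_num)
    rw [pr_sub, pr_smul, ← hm, ringZ_single, one_smul] at hw
    ext s
    rw [mapDomain_smul_apply]
    have h1 := DFunLike.congr_fun hw s
    rw [Finsupp.sub_apply, mapDomain_smul_apply, Finsupp.smul_apply, smul_eq_mul] at h1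
    change m (g⁻¹ • s) % (n : ℤ) = m s % (n : ℤ)
    exact (Int.emod_eq_emod_iff_emod_sub_eq_zero).2 (by rw [h1]; exact Int.mul_emod_right _ _)
  obtain ⟨e, he⟩ : ∃ e : S →₀ ℤ, m - m' = (n : ℤ) • e := by
    refine ⟨m.mapRange (fun a => a / (n : ℤ)) (Int.zero_ediv _), ?_⟩
    ext s
    rw [Finsupp.sub_apply, Finsupp.smul_apply]
    change m s - m s % (n : ℤ) = (n : ℤ) * (m s / (n : ℤ))
    have := Int.emod_add_mul_ediv (m s) n
    linarith
  have h2 : ∀ j, ∃ w : S →₀ ℤ, y j - X.aug j • m' = (n : ℤ) • w := by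
    intro j
    obtain ⟨w, hw⟩ := h0 (Pi.single j 1 - X.aug j • x0) (by
      rw [eps_sub, eps_single, eps_zsmul, hx0, mul_one, sub_self])
    rw [pr_sub, pr_single] at hw
    have h3 : pr (ringZ G S) (X.aug j • x0) y = X.aug j • m := by
      rw [hm]
      simp only [pr, Pi.smul_apply, map_zsmul, Finset.smul_sum]
      rfl
    rw [h3] at hw
    refine ⟨w + X.aug j • e, ?_⟩
    rw [smul_add, ← hw, smul_comm, ← he, smul_sub]
    abel
  choose w hw using h2
  refine ⟨w, ?_⟩
  have h4 : cobdZ X S 0 (y - fun j => X.aug j • m') = (n : ℤ) • cobdZ X S 0 w := by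
    rw [← map_zsmul]
    congr 1
    exact funext hw
  rw [map_sub, inv_cob X m' hm', sub_zero, hy] at h4
  exact (smul_right_injective _ hn' h4).symm

/-! ### finite index -/

section fin

variable {L P : Subgroup G} (h : L ≤ P)

lemma fib_finite (hf : L.relIndex P ≠ 0) (q : G ⧸ P) :
    (Subgroup.quotientMapOfLE h ⁻¹' {q}).Finite := by
  have hfin : Finite (P ⧸ L.subgroupOf P) := Subgroup.index_ne_zero_iff_finite.1 hf
  induction q using QuotientGroup.induction_on with
  | H g =>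
    refine (Set.finite_range (fun r : P ⧸ L.subgroupOf P =>
      (QuotientGroup.mk (g * ((r.out : P) : G)) : G ⧸ L))).subset ?_
    intro y hy
    induction y using QuotientGroup.induction_on with
    | H u =>
      have h1 : u⁻¹ * g ∈ P := QuotientGroup.eq.1 hy
      have h2 : g⁻¹ * u ∈ P := by
        have := P.inv_mem h1
        rwa [mul_inv_rev, inv_inv] at this
      refine ⟨QuotientGroup.mk ⟨g⁻¹ * u, h2⟩, ?_⟩
      have h3 : (⟨g⁻¹ * u, h2⟩ : P)⁻¹ *
          ((QuotientGroup.mk ⟨g⁻¹ * u, h2⟩ : P ⧸ L.subgroupOf P).out : P) ∈ L.subgroupOf P :=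
        QuotientGroup.eq.1 (Quotient.out_eq _).symm
      rw [Subgroup.mem_subgroupOf] at h3
      symm
      rw [QuotientGroup.eq]
      have e : u⁻¹ * (g * (((QuotientGroup.mk ⟨g⁻¹ * u, h2⟩ : P ⧸ L.subgroupOf P).out : P) : G)) =
          (((⟨g⁻¹ * u, h2⟩ : P)⁻¹ *
          ((QuotientGroup.mk ⟨g⁻¹ * u, h2⟩ : P ⧸ L.subgroupOf P).out : P) : P) : G) := by
        push_cast
        group
      rw [e]
      exact h3

/-- the transfer -/
noncomputable def trf (hf : L.relIndex P ≠ 0) : (G ⧸ P →₀ ℤ) →+ (G ⧸ L →₀ ℤ) where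
  toFun x := Finsupp.ofSupportFinite (fun q => x (Subgroup.quotientMapOfLE h q)) (by
    refine ((Finsupp.finite_support x).preimage' fun b _ => fib_finite h hf b).subset ?_
    intro q hq
    exact hq)
  map_zero' := by
    ext q
    rfl
  map_add' x y := by
    ext q
    rfl

lemma trf_apply (hf : L.relIndex P ≠ 0) (x : G ⧸ P →₀ ℤ) (q : G ⧸ L) :
    trf h hf x q = x (Subgroup.quotientMapOfLE h q) := rfl

lemma eqv_trf (hf : L.relIndex P ≠ 0) : Eqv G (trf h hf) := by
  intro g x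
  ext q
  rw [trf_apply, mapDomain_smul_apply, mapDomain_smul_apply, trf_apply, qp_smul]

lemma card_fib (g : G) : Nat.card (Subgroup.quotientMapOfLE h ⁻¹' {(QuotientGroup.mk g : G ⧸ P)}) =
    Nat.card (Subgroup.quotientMapOfLE h ⁻¹' {(QuotientGroup.mk 1 : G ⧸ P)}) := by
  symm
  refine Nat.card_congr (Equiv.subtypeEquiv (MulAction.toPerm g) fun q => ?_)
  change Subgroup.quotientMapOfLE h q = QuotientGroup.mk 1 ↔
    Subgroup.quotientMapOfLE h (g • q) = QuotientGroup.mk g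
  rw [qp_smul]
  constructor
  · intro h1
    rw [h1]
    change (QuotientGroup.mk (g * 1) : G ⧸ P) = _
    rw [mul_one]
  · intro h1
    have h2 : g • Subgroup.quotientMapOfLE h q = g • (QuotientGroup.mk 1 : G ⧸ P) := by
      rw [h1]
      change _ = (QuotientGroup.mk (g * 1) : G ⧸ P)
      rw [mul_one]
    exact MulAction.injective g h2

lemma proj_trf (hf : L.relIndex P ≠ 0) (x : G ⧸ P →₀ ℤ) :
    (trf h hf x).mapDomain (Subgroup.quotientMapOfLE h) =
      ((Nat.card (Subgroup.quotientMapOfLE h ⁻¹' {(QuotientGroup.mk 1 : G ⧸ P)}) : ℕ) : ℤ) • x := by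
  classical
  ext q
  obtain ⟨g, rfl⟩ := QuotientGroup.mk_surjective q
  have h0 : (QuotientGroup.mk g : G ⧸ P) =
    Subgroup.quotientMapOfLE h (QuotientGroup.mk g : G ⧸ L) := rfl
  rw [h0, Finsupp.mapDomain_apply_eq_sum, ← h0, Finsupp.smul_apply, smul_eq_mul]
  have h1 : ∀ a ∈ (trf h hf x).support.filter
      (fun a => Subgroup.quotientMapOfLE h a = (QuotientGroup.mk g : G ⧸ P)),
      trf h hf x a = x (QuotientGroup.mk g : G ⧸ P) := by
    intro a ha
    rw [trf_apply, (Finset.mem_filter.1 ha).2]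
  rw [Finset.sum_congr rfl h1, Finset.sum_const, nsmul_eq_mul]
  by_cases hx : x (QuotientGroup.mk g : G ⧸ P) = 0
  · rw [hx, mul_zero, mul_zero]
  · congr 2
    have h2 : ((((trf h hf x).support.filter
        (fun a => Subgroup.quotientMapOfLE h a = (QuotientGroup.mk g : G ⧸ P))) :
        Finset (G ⧸ L)) : Set (G ⧸ L)) =
        Subgroup.quotientMapOfLE h ⁻¹' {(QuotientGroup.mk g : G ⧸ P)} := by
      ext a
      rw [Finset.mem_coe, Finset.mem_filter, Finsupp.mem_support_iff, trf_apply]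
      constructor
      · exact fun h => h.2
      · intro h3
        have h4 : Subgroup.quotientMapOfLE h a = (QuotientGroup.mk g : G ⧸ P) := h3
        exact ⟨by rw [h4]; exact hx, h4⟩
    have h3 : ((trf h hf x).support.filter
        (fun a => Subgroup.quotientMapOfLE h a = (QuotientGroup.mk g : G ⧸ P))).card =
        Nat.card (Subgroup.quotientMapOfLE h ⁻¹' {(QuotientGroup.mk g : G ⧸ P)}) := by
      rw [← h2, Nat.card_coe_set_eq, Set.ncard_coe_finset]
    rw [h3]
    exact card_fib h g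

/-- subgroups of finite index -/
theorem V_fin (X : FinRes G) {L P : Subgroup G} (h : L ≤ P) (hf : L.relIndex P ≠ 0) (hV : V X (G ⧸ L) 1) : V X (G ⧸ P) 1 := by
  intro z hz
  have h1 : cobdZ X (G ⧸ L) 1 (psf (trf h hf) z) = 0 := by
    rw [cobdZ_psf X (eqv_trf h hf), hz, map_zero]
  have h2 := cob_psh X (Subgroup.quotientMapOfLE h) (qp_smul h) (hV _ h1)
  have h3 : psh (Subgroup.quotientMapOfLE h) (psf (trf h hf) z) =
      ((Nat.card (Subgroup.quotientMapOfLE h ⁻¹' {(QuotientGroup.mk 1 : G ⧸ P)}) : ℕ) : ℤ) • z := by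
    funext j
    exact proj_trf h hf (z j)
  rw [h3] at h2
  refine cob_of_smul X ?_ z h2
  have : Finite (Subgroup.quotientMapOfLE h ⁻¹' {(QuotientGroup.mk 1 : G ⧸ P)}) :=
    (fib_finite h hf _).to_subtype
  have : Nonempty (Subgroup.quotientMapOfLE h ⁻¹' {(QuotientGroup.mk 1 : G ⧸ P)}) :=
    ⟨⟨QuotientGroup.mk 1, rfl⟩⟩
  exact Nat.card_pos.ne'

end fin

end Pool.Agent.K9h14.ZA
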