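import Pool.Agent.H496R3.ZS.Stmt
import Pool.Agent.TH38.CX.Syz

/-!
Groups obtained from amenable groups by actions on trees with amenable edge stabilisers.
-/

set_option autoImplicit false

namespace Pool.Agent.K9h14.ZA

open Pool.Agent.H496R3.ZS (IsAmenable)
open Pool.Agent.TH38.CX (AcyclicGComplex)

/-- The smallest class of groups such that
* the amenable groups belong to the class,
* a group `H` belongs to the class if it acts on a tree `T` (an acyclic complex of dimension at
  most one) such that the stabilisers of the edges are amenable and the stabilisers of the
  vertices belong to the class,
* a group belongs to the class if a subgroup of finite index does,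
* a group belongs to the class if every finite subset is contained in a subgroup which does. -/
inductive TreeAmenable : (H : Type) → [Group H] → Prop
  | amenable {H : Type} [Group H] (h : IsAmenable H) : TreeAmenable H
  | tree {H : Type} [Group H] (T : AcyclicGComplex H) (hT : T.len ≤ 1)
      (he : ∀ e : T.E 1, IsAmenable (MulAction.stabilizer H e))
      (hv : ∀ v : T.E 0, TreeAmenable (MulAction.stabilizer H v)) : TreeAmenable H
  | finite_index {H : Type} [Group H] (K : Subgroup H) (hK : K.index ≠ 0)
      (h : TreeAmenable K) : TreeAmenable H
  | union {H : Type} [Group H] (K : Finset H → Subgroup H)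
      (hK : ∀ F : Finset H, (F : Set H) ⊆ K F) (h : ∀ F, TreeAmenable (K F)) : TreeAmenable H

end Pool.Agent.K9h14.ZA
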