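import Pool.Agent.K9h14.ZA.Ind
import Pool.Agent.K9h14.ZA.Clo
import Pool.Agent.K9h14.ZA.Defs

/-!
Groups obtained from amenable groups by actions on trees with amenable edge stabilisers, and the
zero-in-the-spectrum theorem for groups acting on acyclic complexes of dimension two.
-/

set_option autoImplicit false

open scoped Matrix

namespace Pool.Agent.K9h14.ZA

open Pool.Agent.H496R3.ZS (IsAmenable)
open Pool.Agent.H919R4.ZS (FinRes toRed)
open Pool.Agent.TH38.CX (AcyclicGComplex)

open scoped Pointwise symmDiff in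
/-- amenability passes to isomorphic groups -/
lemma amenable_equiv {H K : Type} [Group H] [Group K] (e : H ≃* K) (h : IsAmenable H) :
    IsAmenable K := by
  classical
  intro S ε hε
  obtain ⟨F, hF, h1⟩ := h (S.image e.symm) ε hε
  refine ⟨F.image e, hF.image _, ?_⟩
  intro s hs
  have h2 := h1 (e.symm s) (Finset.mem_image_of_mem _ hs)
  rw [Finset.card_image_of_injective _ e.injective]
  refine le_trans (le_of_eq ?_) h2
  congr 1
  have h3 : ((s • ((F.image e : Finset K) : Set K)) ∆ ((F.image e : Finset K) : Set K)) =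
      e '' ((e.symm s • (F : Set H)) ∆ (F : Set H)) := by
    rw [Set.image_symmDiff e.injective, Finset.coe_image]
    congr 1
    ext x
    constructor
    · rintro ⟨_, ⟨y, hy, rfl⟩, rfl⟩
      refine ⟨e.symm s * y, ⟨y, hy, rfl⟩, ?_⟩
      rw [map_mul, MulEquiv.apply_symm_apply]
      rfl
    · rintro ⟨_, ⟨y, hy, rfl⟩, rfl⟩
      refine ⟨e y, ⟨y, hy, rfl⟩, ?_⟩
      change s * e y = e (e.symm s * y)
      rw [map_mul, MulEquiv.apply_symm_apply]
  rw [h3, Set.ncard_image_of_injective _ e.injective]

variable {G : Type} [Group G]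

/-- vanishing for amenable subgroups -/
theorem V_amen (X : FinRes G) (hs : ∀ i ≤ 2, Subsingleton (X.homology (toRed G) i))
    {D : Subgroup G} (hD : IsAmenable D) {k : ℕ} (hk : k ≤ 2) : V X (G ⧸ D) k := by
  rcases finite_or_infinite (G ⧸ D) with hf | hf
  · obtain ⟨i, hi, hn⟩ := Pool.Agent.N453.ZS.finite_case X hD hf
    exact absurd hn (not_nontrivial_iff_subsingleton.2 (hs i hi))
  · intro z hz
    have h := Pool.Agent.H919R4.AS.coset X hD hf hs k hk
    rw [QuotientAddGroup.subsingleton_iff, AddSubgroup.addSubgroupOf_eq_top] at h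
    exact h hz

/-- an amenable subgroup has infinite index -/
theorem infinite_amen (X : FinRes G) (hs : ∀ i ≤ 2, Subsingleton (X.homology (toRed G) i))
    {D : Subgroup G} (hD : IsAmenable D) : Infinite (G ⧸ D) := by
  rcases finite_or_infinite (G ⧸ D) with hf | hf
  · obtain ⟨i, hi, hn⟩ := Pool.Agent.N453.ZS.finite_case X hD hf
    exact absurd hn (not_nontrivial_iff_subsingleton.2 (hs i hi))
  · exact hf

lemma amenable_range {H : Type} [Group H] (φ : H →* G) (hφ : Function.Injective φ)
    (h : IsAmenable H) : IsAmenable φ.range :=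
  amenable_equiv (MonoidHom.ofInjective hφ) h

/-- the vanishing of `H^1(G; ℤ[G/H])` -/
theorem V_one (X : FinRes G) (hs : ∀ i ≤ 2, Subsingleton (X.homology (toRed G) i))
    {H : Type} [Group H] (hH : TreeAmenable H) :
    ∀ φ : H →* G, Function.Injective φ → V X (G ⧸ φ.range) 1 := by
  induction hH with
  | amenable h => exact fun φ hφ => V_amen X hs (amenable_range φ hφ h) (by norm_num)
  | tree T hT he hv ih =>
    intro φ hφ
    have : Inj φ := ⟨hφ⟩
    refine V_tree φ X T hT ?_ ?_
    · refine V_ind φ X 2 fun e => V_amen X hs (amenable_range _ ?_ (he e)) le_rfl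
      exact hφ.comp Subtype.val_injective
    · refine V_ind φ X 1 fun v => ih v _ ?_
      exact hφ.comp Subtype.val_injective
  | finite_index K hK h ih =>
    intro φ hφ
    have hle : (φ.comp K.subtype).range ≤ φ.range := by
      rintro _ ⟨x, rfl⟩
      exact ⟨x, rfl⟩
    refine V_fin X hle ?_ (ih (φ.comp K.subtype) (hφ.comp Subtype.val_injective))
    have e1 : (φ.comp K.subtype).range = K.map φ := by
      rw [MonoidHom.range_comp, Subgroup.range_subtype]
    have e2 : φ.range = (⊤ : Subgroup _).map φ := MonoidHom.range_eq_map φ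
    rw [e1, e2, Subgroup.relIndex_map_map_of_injective _ _ hφ, Subgroup.relIndex_top_right]
    exact hK
  | union K hK h ih =>
    intro φ hφ
    classical
    refine V_local X φ.range fun F hF => ?_
    choose! r hr using fun x (hx : x ∈ F) => hF (Finset.mem_coe.2 hx)
    refine ⟨(φ.comp (K (F.image r)).subtype).range, ?_, ?_,
      ih (F.image r) _ (hφ.comp Subtype.val_injective)⟩
    · intro x hx
      exact ⟨⟨r x, hK _ (Finset.mem_coe.2 (Finset.mem_image_of_mem r hx))⟩, hr x hx⟩
    · rintro _ ⟨x, rfl⟩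
      exact ⟨x, rfl⟩

theorem V_one' (X : FinRes G) (hs : ∀ i ≤ 2, Subsingleton (X.homology (toRed G) i))
    {D : Subgroup G} (hD : TreeAmenable D) : V X (G ⧸ D) 1 := by
  have h := V_one X hs hD D.subtype Subtype.val_injective
  rwa [Subgroup.range_subtype] at h

/-- Actions on two-dimensional acyclic complexes. -/
theorem two_dim (X : FinRes G) (Y : AcyclicGComplex G) (hY : Y.len ≤ 2)
    (h0 : ∀ v : Y.E 0, (MulAction.orbit G v).Infinite)
    (h1 : ∀ e : Y.E 1, TreeAmenable (MulAction.stabilizer G e))
    (h2 : ∀ f : Y.E 2, IsAmenable (MulAction.stabilizer G f)) :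
    ∃ i ≤ 2, Nontrivial (X.homology (toRed G) i) := by
  by_contra hcon
  push Not at hcon
  have hs : ∀ i ≤ 2, Subsingleton (X.homology (toRed G) i) := fun i hi =>
    not_nontrivial_iff_subsingleton.1 (by simpa using hcon i hi)
  refine no_res X Y hY (V_zero X h0) ?_ ?_
  · exact V_of_orbits X fun e => ⟨e, MulAction.mem_orbit_self e, V_one' X hs (h1 e)⟩
  · exact V_of_orbits X fun e => ⟨e, MulAction.mem_orbit_self e, V_amen X hs (h2 e) le_rfl⟩

end Pool.Agent.K9h14.ZA
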