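import Pool.Agent.K9h14.ZA.Cls

/-!
Derivations `G → ℤ[S]`: if `H^1(G; ℤ[S]) = 0`, computed from a resolution, they are inner.
-/

set_option autoImplicit false

open scoped Matrix

namespace Pool.Agent.K9h14.ZA

open Pool.Agent.H919R4.ZS (FinRes toRed eps eps_d augm augm_single)
open Pool.Agent.H919R4.AS (permZ ringZ cobdZ coboundariesZ cohomologyZ)
open Pool.Agent.N453.ZS (ringZ_single)

variable {G : Type} [Group G]

section module

variable {M : Type} [AddCommGroup M] (ρ : MonoidAlgebra ℤ G →+* AddMonoid.End M)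

lemma cob_cob (X : FinRes G) (i : ℕ) (v : Fin (X.n i) → M) :
    cob ρ X (i + 1) (cob ρ X i v) = 0 := by
  funext k
  have h1 := pr_vecMul ρ (X.d (i + 1) k) (X.d i) v
  have h2 : (X.d (i + 1) k) ᵥ* (X.d i) = 0 := by
    rw [← Matrix.mul_apply_eq_vecMul, Pool.Agent.H919R4.ZS.d_mul_d]
    rfl
  rw [h2] at h1
  change pr ρ (X.d (i + 1) k) (cob ρ X i v) = 0
  refine h1.symm.trans ?_
  simp [pr]

lemma cob_sub (X : FinRes G) (i : ℕ) (v w : Fin (X.n i) → M) :
    cob ρ X i (v - w) = cob ρ X i v - cob ρ X i w := by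
  funext k
  simp only [cob, Pi.sub_apply, map_sub, Finset.sum_sub_distrib]

end module

variable {S : Type} [MulAction G S]

/-- `b` is a derivation `G → ℤ[S]` (a cocycle of degree one) -/
def IsDer (b : G → (S →₀ ℤ)) : Prop :=
  ∀ g h : G, b (g * h) = b g + (b h).mapDomain (fun s => g • s)

lemma IsDer.one {b : G → (S →₀ ℤ)} (hb : IsDer b) : b 1 = 0 := by
  have h := hb 1 1
  rw [mul_one] at h
  have e : (b 1).mapDomain (fun s : S => (1 : G) • s) = b 1 := by
    simp only [one_smul]
    exact Finsupp.mapDomain_id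
  rw [e] at h
  simpa using h

/-- the action on `ℤ[S] × ℤ` -/
noncomputable def permE {b : G → (S →₀ ℤ)} (hb : IsDer b) :
    G →* AddMonoid.End ((S →₀ ℤ) × ℤ) where
  toFun g :=
    { toFun := fun e => (e.1.mapDomain (fun s => g • s) + e.2 • b g, e.2)
      map_zero' := by simp
      map_add' := fun x y => by
        refine Prod.ext ?_ rfl
        change (x.1 + y.1).mapDomain _ + (x.2 + y.2) • b g = _ + _ + (_ + _)
        rw [Finsupp.mapDomain_add, add_smul]
        abel }
  map_one' := by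
    refine AddMonoidHom.ext fun e => ?_
    refine Prod.ext ?_ rfl
    change e.1.mapDomain (fun s => (1 : G) • s) + e.2 • b 1 = e.1
    rw [hb.one, smul_zero, add_zero]
    simp only [one_smul]
    exact Finsupp.mapDomain_id
  map_mul' g h := by
    refine AddMonoidHom.ext fun e => ?_
    refine Prod.ext ?_ rfl
    change e.1.mapDomain (fun s => (g * h) • s) + e.2 • b (g * h) =
      (e.1.mapDomain (fun s => h • s) + e.2 • b h).mapDomain (fun s => g • s) + e.2 • b g
    have h1 : (e.2 • b h).mapDomain (fun s => g • s) =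
        e.2 • (b h).mapDomain (fun s => g • s) := Finsupp.mapDomain_smul _ _
    rw [hb, Finsupp.mapDomain_add, ← Finsupp.mapDomain_comp, h1, smul_add]
    have h2 : (fun s : S => (g * h) • s) = (fun s => g • s) ∘ (fun s => h • s) := by
      funext s
      exact mul_smul g h s
    rw [h2]
    abel

/-- the action of the group ring -/
noncomputable def ringE {b : G → (S →₀ ℤ)} (hb : IsDer b) :
    MonoidAlgebra ℤ G →+* AddMonoid.End ((S →₀ ℤ) × ℤ) :=
  MonoidAlgebra.liftNCRingHom (Int.castRingHom _) (permE hb)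
    (fun x y => Int.cast_commute x (permE hb y))

lemma ringE_single {b : G → (S →₀ ℤ)} (hb : IsDer b) (g : G) (r : ℤ) (e : (S →₀ ℤ) × ℤ) :
    ringE hb (MonoidAlgebra.single g r) e =
      r • (e.1.mapDomain (fun s => g • s) + e.2 • b g, e.2) := by
  have e4 : ringE hb (MonoidAlgebra.single g r) =
      (r : AddMonoid.End ((S →₀ ℤ) × ℤ)) * permE hb g := by
    change MonoidAlgebra.liftNC _ _ _ = _
    rw [MonoidAlgebra.liftNC_single]
    rfl
  rw [e4]
  change (r : AddMonoid.End ((S →₀ ℤ) × ℤ)) (permE hb g e) = _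
  rw [AddMonoid.End.intCast_apply]
  rfl

lemma ringE_apply {b : G → (S →₀ ℤ)} (hb : IsDer b) (a : MonoidAlgebra ℤ G) :
    ∃ B : S →₀ ℤ, ∀ e : (S →₀ ℤ) × ℤ,
      ringE hb a e = (ringZ G S a e.1 + e.2 • B, augm G a * e.2) := by
  refine MonoidAlgebra.induction_linear a ?_ ?_ ?_
  · refine ⟨0, fun e => ?_⟩
    rw [map_zero, map_zero, map_zero]
    refine Prod.ext ?_ ?_
    · change (0 : S →₀ ℤ) = 0 + e.2 • (0 : S →₀ ℤ)
      rw [smul_zero, add_zero]
    · change (0 : ℤ) = 0 * e.2
      rw [zero_mul]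
  · rintro u v ⟨B, hB⟩ ⟨B', hB'⟩
    refine ⟨B + B', fun e => ?_⟩
    rw [map_add, map_add, map_add]
    change ringE hb u e + ringE hb v e = _
    rw [hB, hB']
    refine Prod.ext ?_ ?_
    · change ringZ G S u e.1 + e.2 • B + (ringZ G S v e.1 + e.2 • B') =
        (ringZ G S u e.1 + ringZ G S v e.1) + e.2 • (B + B')
      rw [smul_add]
      abel
    · change augm G u * e.2 + augm G v * e.2 = (augm G u + augm G v) * e.2
      ring
  · intro g r
    refine ⟨r • b g, fun e => ?_⟩
    rw [ringE_single, ringZ_single, augm_single]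
    refine Prod.ext ?_ ?_
    · change r • (e.1.mapDomain _ + e.2 • b g) = r • _ + e.2 • (r • b g)
      rw [smul_add, smul_comm]
    · rfl

/-- derivations are inner -/
theorem inner_of_V (X : FinRes G) (hV : V X S 1) {b : G → (S →₀ ℤ)} (hb : IsDer b) :
    ∃ m : S →₀ ℤ, ∀ g : G, b g = m.mapDomain (fun s => g • s) - m := by
  choose B hB using ringE_apply hb
  have fsum : ∀ {n : ℕ} (f : Fin n → (S →₀ ℤ) × ℤ), ∑ j, f j = (∑ j, (f j).1, ∑ j, (f j).2) := by
    intro n f
    exact Prod.ext Prod.fst_sum Prod.snd_sum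
  let u0 : Fin (X.n 0) → (S →₀ ℤ) × ℤ := fun j => (0, X.aug j)
  let c : Fin (X.n 1) → (S →₀ ℤ) := fun k => ∑ j, X.aug j • B (X.d 0 k j)
  have h1 : ∀ k, cob (ringE hb) X 0 u0 k = (c k, 0) := by
    intro k
    change ∑ j, ringE hb (X.d 0 k j) (0, X.aug j) = _
    rw [Finset.sum_congr rfl fun j _ => hB (X.d 0 k j) (0, X.aug j), fsum]
    refine Prod.ext ?_ ?_
    · change ∑ j, (ringZ G S (X.d 0 k j) 0 + X.aug j • B (X.d 0 k j)) = _
      simp only [map_zero, zero_add]
      rfl
    · have := eps_d X (Pi.single k 1)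
      rw [Matrix.single_one_vecMul] at this
      exact this
  have hinc : ∀ (i : ℕ) (y : Fin (X.n i) → (S →₀ ℤ)) (k : Fin (X.n (i + 1))),
      cob (ringE hb) X i (fun j => (y j, (0 : ℤ))) k = (cobdZ X S i y k, 0) := by
    intro i y k
    change ∑ j, ringE hb (X.d i k j) (y j, (0 : ℤ)) = _
    rw [Finset.sum_congr rfl fun j _ => hB (X.d i k j) (y j, (0 : ℤ)), fsum]
    refine Prod.ext ?_ ?_
    · change ∑ j, (ringZ G S (X.d i k j) (y j) + (0 : ℤ) • B (X.d i k j)) = _
      simp only [zero_smul, add_zero]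
      rfl
    · change ∑ j, augm G (X.d i k j) * (0 : ℤ) = 0
      simp
  have hc : cobdZ X S 1 c = 0 := by
    funext k
    have h2 := hinc 1 c k
    have h3 : (fun j => (c j, (0 : ℤ))) = cob (ringE hb) X 0 u0 := funext fun j => (h1 j).symm
    rw [h3, cob_cob] at h2
    exact (congrArg Prod.fst h2).symm
  obtain ⟨w, hw⟩ := hV c hc
  have hz : cob (ringE hb) X 0 (u0 - fun j => (w j, (0 : ℤ))) = 0 := by
    rw [cob_sub]
    funext k
    rw [Pi.sub_apply, h1, hinc, hw, sub_self]
    rfl
  obtain ⟨x0, hx0⟩ := X.surj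
  obtain ⟨h4, -⟩ := zero_cocycle (ringE hb) X _ hz (x0 := x0) hx0
  set e := pr (ringE hb) x0 (u0 - fun j => (w j, (0 : ℤ))) with he
  have he2 : e.2 = 1 := by
    rw [he]
    unfold pr
    rw [Finset.sum_congr rfl fun j _ => hB (x0 j) _, fsum]
    change ∑ j, augm G (x0 j) * (X.aug j - 0) = 1
    simpa using hx0
  refine ⟨-e.1, fun g => ?_⟩
  have h5 := h4 g
  rw [ringE_single, one_smul, he2, one_smul] at h5
  have h6 : e.1.mapDomain (fun s => g • s) + b g = e.1 := congrArg Prod.fst h5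
  have h7 : (-e.1).mapDomain (fun s => g • s) = -(e.1.mapDomain (fun s => g • s)) := by
    have := (Finsupp.mapDomain.addMonoidHom (fun s : S => g • s) (M := ℤ)).map_neg e.1
    exact this
  rw [h7, sub_neg_eq_add, neg_add_eq_sub, eq_sub_iff_add_eq, add_comm]
  exact h6

/-- derivations with values in permutation modules with stabilisers in the class -/
theorem der_class (X : FinRes G) (hst : ∀ s : S, TreeAmenable (MulAction.stabilizer G s))
    (b : G → (S →₀ ℤ)) (hb : IsDer b)
    (hb' : ¬ ∃ m : S →₀ ℤ, ∀ g : G, b g = m.mapDomain (fun s => g • s) - m) :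
    ∃ i ≤ 2, Nontrivial (X.homology (toRed G) i) := by
  by_contra hcon
  push Not at hcon
  have hs : ∀ i ≤ 2, Subsingleton (X.homology (toRed G) i) := fun i hi =>
    not_nontrivial_iff_subsingleton.1 (by simpa using hcon i hi)
  have hV : V X S 1 :=
    V_of_orbits X fun s => ⟨s, MulAction.mem_orbit_self s, V_one' X hs (hst s)⟩
  exact hb' (inner_of_V X hV hb)

end Pool.Agent.K9h14.ZA
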