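import Pool.Agent.K9h14.ZA.Base

/-!
Induced `G`-sets `G ×_H E` and the vanishing of `H^1(G; ℤ[G/H])` for groups `H` acting on trees.
-/

set_option autoImplicit false

open scoped Matrix

namespace Pool.Agent.K9h14.ZA

open Pool.Agent.H496R3.ZS (IsAmenable)
open Pool.Agent.H919R4.ZS (FinRes toRed)
open Pool.Agent.TH38.CX (AcyclicGComplex)

variable {G H : Type} [Group G] [Group H] (φ : H →* G)

open Classical in
/-- a section of `G → G/φ(H)` which maps the base point to `1` -/
noncomputable def sec (q : G ⧸ φ.range) : G := if q = QuotientGroup.mk 1 then 1 else q.out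

lemma mk_sec (q : G ⧸ φ.range) : (QuotientGroup.mk (sec φ q) : G ⧸ φ.range) = q := by
  unfold sec
  split_ifs with h
  · exact h.symm
  · exact Quotient.out_eq q

lemma sec_base : sec φ (QuotientGroup.mk 1) = 1 := by
  rw [sec, if_pos rfl]

lemma coc_mem (g : G) (q : G ⧸ φ.range) : (sec φ (g • q))⁻¹ * (g * sec φ q) ∈ φ.range := by
  rw [← QuotientGroup.eq, mk_sec]
  conv_lhs => rw [← mk_sec φ q]
  rfl

/-- the cocycle -/
noncomputable def coc (g : G) (q : G ⧸ φ.range) : H := (coc_mem φ g q).choose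

lemma coc_spec (g : G) (q : G ⧸ φ.range) : φ (coc φ g q) = (sec φ (g • q))⁻¹ * (g * sec φ q) :=
  (coc_mem φ g q).choose_spec

/-- the induced `G`-set -/
def Ind (E : Type) : Type := (G ⧸ φ.range) × E

/-- the point `[q, e]` -/
def mkI {E : Type} (q : G ⧸ φ.range) (e : E) : Ind φ E := (q, e)

/-- the projection to `G/φ(H)` -/
def fs {E : Type} (s : Ind φ E) : G ⧸ φ.range := s.1

lemma mkI_inj {E : Type} (q : G ⧸ φ.range) : Function.Injective (mkI φ q : E → Ind φ E) :=
  fun _ _ h => congrArg Prod.snd h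

/-- injectivity as a class -/
class Inj (φ : H →* G) : Prop where
  inj : Function.Injective φ

variable [hφ : Inj φ]

lemma coc_one (q : G ⧸ φ.range) : coc φ 1 q = 1 := by
  apply hφ.inj
  rw [coc_spec, one_smul, one_mul, inv_mul_cancel, map_one]

lemma coc_mul (g g' : G) (q : G ⧸ φ.range) :
    coc φ (g * g') q = coc φ g (g' • q) * coc φ g' q := by
  apply hφ.inj
  rw [map_mul, coc_spec, coc_spec, coc_spec, mul_smul]
  group

variable {E E' : Type} [MulAction H E] [MulAction H E']

noncomputable instance : MulAction G (Ind φ E) where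
  smul g s := (g • s.1, coc φ g s.1 • s.2)
  one_smul s := by
    change ((1 : G) • s.1, coc φ 1 s.1 • s.2) = s
    rw [one_smul, coc_one, one_smul]
    rfl
  mul_smul g g' s := by
    change ((g * g') • s.1, coc φ (g * g') s.1 • s.2) =
      (g • g' • s.1, coc φ g (g' • s.1) • coc φ g' s.1 • s.2)
    rw [mul_smul, coc_mul, mul_smul]

lemma ind_smul (g : G) (q : G ⧸ φ.range) (e : E) :
    g • (mkI φ q e) = (g • q, coc φ g q • e) := rfl

omit hφ in
lemma mem_range_iff (g : G) : g • (QuotientGroup.mk 1 : G ⧸ φ.range) = QuotientGroup.mk 1 ↔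
    g ∈ φ.range := by
  change (QuotientGroup.mk (g * 1) : G ⧸ φ.range) = QuotientGroup.mk 1 ↔ _
  rw [mul_one, eq_comm, QuotientGroup.eq, inv_one, one_mul]

/-- the stabiliser of a point over the base point -/
lemma stab_base (e : E) :
    MulAction.stabilizer G (mkI φ (QuotientGroup.mk 1) e) =
      (φ.comp (MulAction.stabilizer H e).subtype).range := by
  ext g
  rw [MulAction.mem_stabilizer_iff, ind_smul, MonoidHom.mem_range]
  change (g • (QuotientGroup.mk 1 : G ⧸ φ.range), coc φ g (QuotientGroup.mk 1) • e) =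
    ((QuotientGroup.mk 1 : G ⧸ φ.range), e) ↔ _
  constructor
  · intro h
    have h1 : g • (QuotientGroup.mk 1 : G ⧸ φ.range) = QuotientGroup.mk 1 := congrArg Prod.fst h
    have h2 : coc φ g (QuotientGroup.mk 1) • e = e := congrArg Prod.snd h
    refine ⟨⟨coc φ g (QuotientGroup.mk 1), h2⟩, ?_⟩
    change φ (coc φ g (QuotientGroup.mk 1)) = g
    rw [coc_spec, h1, sec_base, inv_one, one_mul, mul_one]
  · rintro ⟨h, rfl⟩
    have h1 : φ (h : H) • (QuotientGroup.mk 1 : G ⧸ φ.range) = QuotientGroup.mk 1 :=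
      (mem_range_iff φ _).2 ⟨h, rfl⟩
    have h2 : coc φ (φ (h : H)) (QuotientGroup.mk 1) = h := by
      apply hφ.inj
      rw [coc_spec, h1, sec_base, inv_one, one_mul, mul_one]
    change ((φ (h : H)) • (QuotientGroup.mk 1 : G ⧸ φ.range),
      coc φ (φ (h : H)) (QuotientGroup.mk 1) • e) = _
    rw [h1, h2]
    have : (h : H) • e = e := h.2
    rw [this]

lemma orbit_base (q : G ⧸ φ.range) (e : E) :
    (mkI φ (QuotientGroup.mk 1) e) ∈
      MulAction.orbit G (mkI φ q e) := by
  refine ⟨(sec φ q)⁻¹, ?_⟩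
  change ((sec φ q)⁻¹ • q, coc φ (sec φ q)⁻¹ q • e) = _
  have h1 : (sec φ q)⁻¹ • q = QuotientGroup.mk 1 := by
    conv_lhs => rw [← mk_sec φ q]
    change (QuotientGroup.mk ((sec φ (QuotientGroup.mk (sec φ q)))⁻¹ * sec φ q) : G ⧸ φ.range) = _
    rw [mk_sec, inv_mul_cancel]
  have h2 : coc φ (sec φ q)⁻¹ q = 1 := by
    apply hφ.inj
    rw [coc_spec, h1, sec_base, inv_one, one_mul, inv_mul_cancel, map_one]
  rw [h1, h2, one_smul]
  rfl

/-- vanishing for the induced set -/
theorem V_ind (X : FinRes G) (k : ℕ)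
    (h : ∀ e : E, V X (G ⧸ (φ.comp (MulAction.stabilizer H e).subtype).range) k) :
    V X (Ind φ E) k := by
  apply V_of_orbits
  rintro ⟨q, e⟩
  refine ⟨_, orbit_base φ q e, ?_⟩
  rw [stab_base]
  exact h e

/-! ### the induced maps -/

/-- the part over `q` -/
noncomputable def sl (q : G ⧸ φ.range) : (Ind φ E →₀ ℤ) →+ (E →₀ ℤ) where
  toFun x := x.comapDomain (mkI φ q)
    (mkI_inj φ q).injOn
  map_zero' := by ext; simp
  map_add' x y := by
    ext e
    simp [Finsupp.comapDomain_apply]

omit hφ [MulAction H E] in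
lemma sl_apply (q : G ⧸ φ.range) (x : Ind φ E →₀ ℤ) (e : E) : sl φ q x e = x (mkI φ q e) := rfl

omit hφ [MulAction H E] in
lemma ext_sl {x y : Ind φ E →₀ ℤ} (h : ∀ q, sl φ q x = sl φ q y) : x = y := by
  ext s
  obtain ⟨q, e⟩ := s
  exact DFunLike.congr_fun (h q) e

omit hφ [MulAction H E] in
open Classical in
lemma sl_mapDomain (q q' : G ⧸ φ.range) (y : E →₀ ℤ) :
    sl φ q (y.mapDomain (mkI φ q')) = if q = q' then y else 0 := by
  ext e
  rw [sl_apply]
  split_ifs with h
  · subst h
    exact Finsupp.mapDomain_apply (mkI_inj φ q) y e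
  · refine (Finsupp.mapDomain_notin_range _ _ ?_).trans rfl
    rintro ⟨e', he⟩
    exact h (congrArg Prod.fst he).symm

/-- the induced map -/
noncomputable def indMap (f : (E →₀ ℤ) →+ (E' →₀ ℤ)) : (Ind φ E →₀ ℤ) →+ (Ind φ E' →₀ ℤ) :=
  Finsupp.liftAddHom fun s =>
    (Finsupp.mapDomain.addMonoidHom (mkI φ s.1)).comp
      (f.comp (Finsupp.singleAddHom s.2))

omit hφ [MulAction H E] [MulAction H E'] in
lemma indMap_single (f : (E →₀ ℤ) →+ (E' →₀ ℤ)) (q : G ⧸ φ.range) (e : E) (r : ℤ) :
    indMap φ f (Finsupp.single (mkI φ q e) r) =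
      (f (Finsupp.single e r)).mapDomain (mkI φ q) := by
  rw [indMap, Finsupp.liftAddHom_apply_single]
  rfl

omit hφ [MulAction H E] [MulAction H E'] in
lemma sl_indMap (f : (E →₀ ℤ) →+ (E' →₀ ℤ)) (q : G ⧸ φ.range) (x : Ind φ E →₀ ℤ) :
    sl φ q (indMap φ f x) = f (sl φ q x) := by
  classical
  induction x using Finsupp.induction_linear with
  | zero => simp
  | add x y hx hy => simp only [map_add, hx, hy]
  | single s r =>
    obtain ⟨q', e⟩ := s
    have e1 : (Finsupp.single (mkI φ q' e) r) =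
        (Finsupp.single e r).mapDomain (mkI φ q') := by
      rw [Finsupp.mapDomain_single]
    change sl φ q (indMap φ f (Finsupp.single (mkI φ q' e) r)) =
      f (sl φ q (Finsupp.single (mkI φ q' e) r))
    rw [indMap_single, sl_mapDomain, e1, sl_mapDomain]
    split_ifs
    · rfl
    · rw [map_zero]

lemma eqv_indMap {f : (E →₀ ℤ) →+ (E' →₀ ℤ)} (hf : Eqv H f) : Eqv G (indMap φ f) := by
  intro g x
  induction x using Finsupp.induction_linear with
  | zero => simp
  | add x y hx hy => simp only [Finsupp.mapDomain_add, map_add, hx, hy]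
  | single s r =>
    obtain ⟨q, e⟩ := s
    rw [Finsupp.mapDomain_single]
    change indMap φ f (Finsupp.single (mkI φ (g • q) (coc φ g q • e)) r) =
      (indMap φ f (Finsupp.single (mkI φ q e) r)).mapDomain _
    rw [indMap_single, indMap_single]
    have h1 : Finsupp.single (coc φ g q • e) r =
        (Finsupp.single e r).mapDomain (fun e => coc φ g q • e) := by
      rw [Finsupp.mapDomain_single]
    rw [h1, hf, ← Finsupp.mapDomain_comp, ← Finsupp.mapDomain_comp]
    rfl

/-- the projection to the base -/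
noncomputable def aug : (Ind φ E →₀ ℤ) →+ (G ⧸ φ.range →₀ ℤ) :=
  Finsupp.mapDomain.addMonoidHom (fs φ)

lemma eqv_aug : Eqv G (aug φ (E := E)) := by
  intro g x
  change Finsupp.mapDomain (fs φ) _ = Finsupp.mapDomain _ (Finsupp.mapDomain (fs φ) x)
  rw [← Finsupp.mapDomain_comp, ← Finsupp.mapDomain_comp]
  rfl

omit hφ [MulAction H E] in
lemma aug_apply (x : Ind φ E →₀ ℤ) (q : G ⧸ φ.range) : aug φ x q = sm E (sl φ q x) := by
  classical
  induction x using Finsupp.induction_linear with
  | zero => simp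
  | add x y hx hy => simp only [map_add, Finsupp.add_apply, hx, hy]
  | single s r =>
    obtain ⟨q', e⟩ := s
    change aug φ (Finsupp.single (mkI φ q' e) r) q = sm E (sl φ q (Finsupp.single (mkI φ q' e) r))
    have e1 : Finsupp.single (mkI φ q' e) r =
        (Finsupp.single e r).mapDomain (mkI φ q') := by
      rw [Finsupp.mapDomain_single]
    have e2 : aug φ (Finsupp.single (mkI φ q' e) r) = Finsupp.single q' r := by
      change Finsupp.mapDomain (fs φ) _ = _
      rw [Finsupp.mapDomain_single]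
      rfl
    rw [e2, e1, sl_mapDomain]
    split_ifs with h
    · subst h
      rw [sm_single, Finsupp.single_eq_same]
    · rw [map_zero, Finsupp.single_eq_of_ne h]

/-- the group `H` acts on a tree -/
theorem V_tree (X : FinRes G) (T : AcyclicGComplex H) (hT : T.len ≤ 1)
    (h1 : V X (Ind φ (T.E 1)) 2) (h0 : V X (Ind φ (T.E 0)) 1) : V X (G ⧸ φ.range) 1 := by
  classical
  refine V_quot X (f := indMap φ (T.bd 0)) (g := aug φ (E := T.E 0))
    (eqv_indMap φ (fun g x => T.bd_smul 0 g x)) (eqv_aug φ) ?_ ?_ ?_ ?_ (k := 0) h1 h0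
  · intro x hx
    apply ext_sl
    intro q
    have h2 : T.bd 0 (sl φ q x) = 0 := by
      rw [← sl_indMap, hx, map_zero]
    obtain ⟨y, hy⟩ := (T.exact_succ 0 _).1 h2
    have := T.isEmpty 2 (by omega)
    have hy0 : y = 0 := by ext e; exact this.elim e
    rw [← hy, hy0, map_zero, map_zero]
  · intro y hy
    have h2 : ∀ q, ∃ z, T.bd 0 z = sl φ q y := by
      intro q
      refine (T.exact_zero _).1 ?_
      change sm _ (sl φ q y) = 0
      rw [← aug_apply, hy]
      rfl
    choose z hz using h2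
    let F : Finset (G ⧸ φ.range) := y.support.image (fs φ)
    refine ⟨∑ q ∈ F, (z q).mapDomain (mkI φ q), ?_⟩
    apply ext_sl
    intro q
    have e3 : sl φ q (∑ q ∈ F, (z q).mapDomain (mkI φ q)) = if q ∈ F then z q else 0 := by
      rw [map_sum, Finset.sum_congr rfl fun q' _ => sl_mapDomain φ q q' (z q'),
        Finset.sum_ite_eq]
    rw [sl_indMap, e3]
    split_ifs with hq
    · exact hz q
    · rw [map_zero]
      ext e
      rw [sl_apply]
      by_contra hne
      apply hq
      refine Finset.mem_image.2 ⟨mkI φ q e, ?_, rfl⟩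
      exact Finsupp.mem_support_iff.2 fun h => hne (by rw [h]; rfl)
  · intro x
    ext q
    rw [aug_apply, sl_indMap]
    exact (T.exact_zero _).2 ⟨_, rfl⟩
  · intro y
    obtain ⟨v⟩ := T.nonempty
    refine ⟨y.mapDomain (fun q => mkI φ q v), ?_⟩
    change Finsupp.mapDomain (fs φ) _ = y
    rw [← Finsupp.mapDomain_comp]
    exact Finsupp.mapDomain_id

end Pool.Agent.K9h14.ZA
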